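import Pool.Agent.H7.HD.Tools2

/-!
# Module XK: failure of the first alternative
-/

open Ordinal Cardinal Order Set
open scoped ZFSet
open _root_.HD

universe u

namespace Pool.Agent.H17.HD.XK

theorem idx (hVH : T_VH.{u}) {C : Cardinal.{u}} {X : Set Ordinal.{u}} (h : Few C.ord X) :
    ∃ τ < C.ord, (∀ a < τ, ∃ z, nth X a z) ∧ ∀ a z, nth X a z → a < τ := by
  obtain ⟨h1, h2, h3, -⟩ := hVH X
  have hex : ∃ τ0 < C.ord, ¬ ∃ z, nth X τ0 z := by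
    by_contra hcon
    push Not at hcon
    choose g hg using hcon
    have hinj : Function.Injective (fun a : Iio C.ord => (⟨g a.1 a.2, (hg a.1 a.2).1⟩ : X)) := by
      intro a b hab
      have hab' : g a.1 a.2 = g b.1 b.2 := congrArg Subtype.val hab
      have e1 := h2 _ _ _ _ (hg a.1 a.2) (hg b.1 b.2)
      have e2 := h2 _ _ _ _ (hg b.1 b.2) (hg a.1 a.2)
      rw [hab'] at e1 e2
      apply Subtype.ext
      apply le_antisymm
      · exact not_lt.1 fun h => lt_irrefl _ (e2.1 h)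
      · exact not_lt.1 fun h => lt_irrefl _ (e1.1 h)
    have h5 := Cardinal.mk_le_of_injective hinj
    rw [Cardinal.mk_Iio_ordinal, Cardinal.card_ord] at h5
    exact absurd (few_iff.1 h) (not_lt.2 h5)
  obtain ⟨τ0, hτ0, hn⟩ := hex
  classical
  have hw : ∃ τ : Ordinal.{u}, ¬ ∃ z, nth X τ z := ⟨τ0, hn⟩
  let τ := WellFounded.min (wellFounded_lt (α := Ordinal.{u})) {τ | ¬ ∃ z, nth X τ z} hw
  have hτ : ¬ ∃ z, nth X τ z := WellFounded.min_mem (wellFounded_lt (α := Ordinal.{u})) _ hw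
  have hle : ∀ a, (¬ ∃ z, nth X a z) → τ ≤ a := fun a ha =>
    not_lt.1 (WellFounded.not_lt_min (wellFounded_lt (α := Ordinal.{u})) (x := a)
      {τ | ¬ ∃ z, nth X τ z} ha)
  refine ⟨τ, (hle τ0 hn).trans_lt hτ0, fun a ha => ?_, fun a z haz => ?_⟩
  · by_contra hc
    exact absurd (hle a hc) (not_le.2 ha)
  · by_contra hc
    rcases (not_lt.1 hc).eq_or_lt with he | hl
    · exact hτ ⟨z, he ▸ haz⟩
    · obtain ⟨y, -, hy⟩ := h3 a z haz τ hl
      exact hτ ⟨y, hy⟩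

theorem isFunc_rs {α β : Ordinal.{u}} {R : Ordinal.{u} → Ordinal.{u} → Prop}
    (h1 : ∀ a < α, ∃ b < β, R a b) (h2 : ∀ a b b', R a b → R a b' → b = b') :
    ZFSet.IsFunc α.toZFSet β.toZFSet (rs α β R) := by
  refine ⟨fun p hp => ?_, fun z hz => ?_⟩
  · obtain ⟨a, ha, b, hb, -, rfl⟩ := mem_rs.1 hp
    rw [ZFSet.pair_mem_prod, toZFSet_mem_toZFSet_iff, toZFSet_mem_toZFSet_iff]
    exact ⟨ha, hb⟩
  · obtain ⟨a, ha, rfl⟩ := mem_toZFSet_iff.1 hz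
    obtain ⟨b, hb, hR⟩ := h1 a ha
    refine ⟨b.toZFSet, pair_mem_rs.2 ⟨ha, hb, hR⟩, fun w hw => ?_⟩
    obtain ⟨a', ha', b', hb', hR', he⟩ := mem_rs.1 hw
    obtain ⟨e1, e2⟩ := ZFSet.pair_injective he
    have e3 := toZFSet_injective e1
    subst e3
    rw [e2, h2 a _ _ hR hR']

theorem nth_uniq (hVH : T_VH.{u}) {X : Set Ordinal.{u}} {a z y : Ordinal.{u}} (h1 : nth X a z)
    (h2 : nth X a y) : z = y := by
  have h := (hVH X).2.1
  apply le_antisymm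
  · exact not_lt.1 fun hl => lt_irrefl _ ((h _ _ _ _ h2 h1).2 hl)
  · exact not_lt.1 fun hl => lt_irrefl _ ((h _ _ _ _ h1 h2).2 hl)

theorem ds_inter {X : Set Ordinal.{u}} (hX : DS X) (β : Ordinal.{u}) : DS (X ∩ Iio β) :=
  DO.and hX (DO.ltc 0 β)

theorem dr_nth (hDB : T_DB.{u}) {X : Set Ordinal.{u}} (hX : DS X) : DR (nth X) := by
  have := hDB (fun a _ => a ∈ X) hX
  exact this

/-- the least code -/
def Lst (Q : Ordinal.{u} → Ordinal.{u} → Prop) (c d : Ordinal.{u}) : Prop :=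
  Q c d ∧ ∀ d' < d, ¬ Q c d'

theorem Lst.uniq {Q : Ordinal.{u} → Ordinal.{u} → Prop} {c d d' : Ordinal.{u}}
    (h : Lst Q c d) (h' : Lst Q c d') : d = d' := by
  apply le_antisymm
  · exact not_lt.1 fun hl => h.2 _ hl h'.1
  · exact not_lt.1 fun hl => h'.2 _ hl h.1

theorem Lst.exist {Q : Ordinal.{u} → Ordinal.{u} → Prop} {c : Ordinal.{u}} (h : ∃ d, Q c d) :
    ∃ d, Lst Q c d := by
  refine ⟨WellFounded.min (wellFounded_lt (α := Ordinal.{u})) {d | Q c d} h,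
    WellFounded.min_mem (wellFounded_lt (α := Ordinal.{u})) _ h, fun d' hd' hQ => ?_⟩
  exact WellFounded.not_lt_min (wellFounded_lt (α := Ordinal.{u})) {d | Q c d} hQ hd'

theorem Lst.do {Q : Ordinal.{u} → Ordinal.{u} → Prop} (hQ : DR Q) : DR (Lst Q) := by
  refine DO.and hQ ?_
  refine DO.allLt (R := fun d w => ¬ Q (w 0) d) 1 ?_
  exact (hQ.s2 1 0).not

/-- `d` is the code of a surjection from a subset of `C` onto `c` -/
def Sj (en : Ordinal.{u} → ZFSet.{u}) (C : Ordinal.{u}) (c d : Ordinal.{u}) : Prop :=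
  (∀ z b b', b ∈ E2 en d z → b' ∈ E2 en d z → b = b') ∧ (∀ z b, b ∈ E2 en d z → b < c) ∧
    ∀ b < c, ∃ z < C, b ∈ E2 en d z

theorem Sj.dr {en : Ordinal.{u} → ZFSet.{u}} (hE : DO fun w => w 0 ∈ E2 en (w 2) (w 1))
    (C : Ordinal.{u}) : DR (Sj en C) := by
  have hE3 : ∀ i j k, DO fun w => w i ∈ E2 en (w k) (w j) := fun i j k =>
    DO.s3 (X := fun a b c => a ∈ E2 en c b) hE i j k
  refine DO.and ?_ (DO.and ?_ ?_)
  · refine DO.all (R := fun z w => ∀ b b', b ∈ E2 en (w 1) z → b' ∈ E2 en (w 1) z → b = b') ?_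
    refine DO.all (R := fun b w => ∀ b', b ∈ E2 en (w 2) (w 0) → b' ∈ E2 en (w 2) (w 0) → b = b')
      ?_
    refine DO.all (R := fun b' w => w 0 ∈ E2 en (w 3) (w 1) → b' ∈ E2 en (w 3) (w 1) → w 0 = b')
      ?_
    exact (hE3 1 2 4).imp ((hE3 0 2 4).imp (DO.eq 1 0))
  · refine DO.all (R := fun z w => ∀ b, b ∈ E2 en (w 1) z → b < w 0) ?_
    refine DO.all (R := fun b w => b ∈ E2 en (w 2) (w 0) → b < w 1) ?_
    exact (hE3 0 1 3).imp (DO.lt 0 2)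
  · refine DO.allLt (R := fun b w => ∃ z < C, b ∈ E2 en (w 1) z) 0 ?_
    refine DO.exLtc (R := fun z w => w 0 ∈ E2 en (w 2) z) C ?_
    exact hE3 1 0 3

theorem sj_exists {en : Ordinal.{u} → ZFSet.{u}} (hen : EN en) {C : Cardinal.{u}}
    {β : Ordinal.{u}} (hmin : ∀ c, C.ord < c → c < β → OntoHOD C.ord c) {c : Ordinal.{u}}
    (hc : c < β) : ∃ d, Sj en C.ord c d := by
  rcases lt_or_ge C.ord c with hl | hl
  · obtain ⟨f, hf, hfun, honto⟩ := hmin c hl hc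
    obtain ⟨d, rfl⟩ := (hen.od f).1 hf.od
    refine ⟨d, fun z b b' h h' => ?_, fun z b h => ?_, fun b hb => ?_⟩
    · have hz : z.toZFSet ∈ C.ord.toZFSet :=
        (ZFSet.pair_mem_prod.1 (hfun.1 (show ZFSet.pair z.toZFSet b.toZFSet ∈ en d from h))).1
      obtain ⟨w, -, hw⟩ := hfun.2 _ hz
      exact toZFSet_injective ((hw b.toZFSet h).trans (hw b'.toZFSet h').symm)
    · exact toZFSet_mem_toZFSet_iff.1
        (ZFSet.pair_mem_prod.1 (hfun.1 (show ZFSet.pair z.toZFSet b.toZFSet ∈ en d from h))).2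
    · obtain ⟨a, ha, h⟩ := honto b hb
      exact ⟨a, ha, h⟩
  · obtain ⟨d, hd⟩ := (hen.od (rs C.ord c (fun a b => a = b))).1 (od_rs (DO.eq 0 1) _ _)
    have key : ∀ z b, b ∈ E2 en d z ↔ z < C.ord ∧ b < c ∧ z = b := by
      intro z b
      show ZFSet.pair z.toZFSet b.toZFSet ∈ en d ↔ _
      rw [hd, pair_mem_rs]
    refine ⟨d, fun z b b' h h' => ?_, fun z b h => ?_, fun b hb => ?_⟩
    · rw [key] at h h'
      rw [← h.2.2, ← h'.2.2]
    · exact ((key _ _).1 h).2.1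
    · exact ⟨b, hb.trans_le hl, (key _ _).2 ⟨hb.trans_le hl, hb, rfl⟩⟩

theorem X (hVH : T_VH.{u}) (hDB : T_DB.{u}) (hEN : T_EN.{u}) (hEA : T_EA.{u}) (hPR : T_PR.{u}) :
    T_XK.{u} := by
  intro δ _ hcase
  unfold CaseA at hcase
  push Not at hcase
  obtain ⟨C, hC0, hCr, hδ, hcase⟩ := hcase
  by_cases hS : SingHOD C.ord
  · -- second case
    obtain ⟨β0, h01, h02, h03⟩ := hcase hS
    -- the least `β`
    obtain ⟨β, ⟨hb1, hb2, hb3⟩, hmin⟩ : ∃ β, (C.ord < β ∧ β < (succ C).ord ∧ ¬ OntoHOD C.ord β) ∧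
        ∀ c < β, ¬ (C.ord < c ∧ c < (succ C).ord ∧ ¬ OntoHOD C.ord c) := by
      let S : Set Ordinal.{u} := {β | C.ord < β ∧ β < (succ C).ord ∧ ¬ OntoHOD C.ord β}
      have hS : S.Nonempty := ⟨β0, h01, h02, h03⟩
      refine ⟨WellFounded.min (wellFounded_lt (α := Ordinal.{u})) S hS,
        WellFounded.min_mem (wellFounded_lt (α := Ordinal.{u})) _ hS, fun c hc hQ => ?_⟩
      exact WellFounded.not_lt_min (wellFounded_lt (α := Ordinal.{u})) S hQ hc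
    have hmin' : ∀ c, C.ord < c → c < β → OntoHOD C.ord c := by
      intro c h1 h2
      by_contra h3
      exact hmin c h2 ⟨h1, h2.trans hb2, h3⟩
    have hcard : β.card = C := by
      apply le_antisymm
      · exact Order.lt_succ_iff.1 (Cardinal.lt_ord.1 hb2)
      · have := Ordinal.card_le_card hb1.le
        rwa [Cardinal.card_ord] at this
    refine ⟨C, β, hC0, hCr, hδ, hb1.le, hb2, ?_⟩
    intro X hX hunb hfew
    rw [hcard] at hfew
    apply hb3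
    obtain ⟨en, hen⟩ := hEN
    obtain ⟨-, hE2, -, -⟩ := hEA en hen
    obtain ⟨t, ht1, ht2, ht3⟩ := hPR
    obtain ⟨τ, hτ, hi1, hi2⟩ := idx hVH hfew
    set X' := X ∩ Iio β with hX'
    have hnth : DR (nth X') := dr_nth hDB (ds_inter hX β)
    have hQ : DR (Lst (Sj en C.ord)) := Lst.do (Sj.dr hE2 C.ord)
    let S : Ordinal.{u} → Ordinal.{u} → Prop := fun a b =>
      ∃ i, ∃ k, ∃ z, ∃ c, ∃ y, y = t k z ∧ a = t i y ∧ nth X' i c ∧
        ((k = 0 ∧ ∃ d, Lst (Sj en C.ord) c d ∧ b ∈ E2 en d z) ∨ (k = 1 ∧ b = c))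
    have hSdr : DR S := by
      refine DO.ex (R := fun i w => ∃ k, ∃ z, ∃ c, ∃ y, y = t k z ∧ w 0 = t i y ∧ nth X' i c ∧
        ((k = 0 ∧ ∃ d, Lst (Sj en C.ord) c d ∧ w 1 ∈ E2 en d z) ∨ (k = 1 ∧ w 1 = c))) ?_
      refine DO.ex (R := fun k w => ∃ z, ∃ c, ∃ y, y = t k z ∧ w 1 = t (w 0) y ∧ nth X' (w 0) c ∧
        ((k = 0 ∧ ∃ d, Lst (Sj en C.ord) c d ∧ w 2 ∈ E2 en d z) ∨ (k = 1 ∧ w 2 = c))) ?_
      refine DO.ex (R := fun z w => ∃ c, ∃ y, y = t (w 0) z ∧ w 2 = t (w 1) y ∧ nth X' (w 1) c ∧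
        ((w 0 = 0 ∧ ∃ d, Lst (Sj en C.ord) c d ∧ w 3 ∈ E2 en d z) ∨ (w 0 = 1 ∧ w 3 = c))) ?_
      refine DO.ex (R := fun c w => ∃ y, y = t (w 1) (w 0) ∧ w 3 = t (w 2) y ∧ nth X' (w 2) c ∧
        ((w 1 = 0 ∧ ∃ d, Lst (Sj en C.ord) c d ∧ w 4 ∈ E2 en d (w 0)) ∨ (w 1 = 1 ∧ w 4 = c))) ?_
      refine DO.ex (R := fun y w => y = t (w 2) (w 1) ∧ w 4 = t (w 3) y ∧ nth X' (w 3) (w 0) ∧
        ((w 2 = 0 ∧ ∃ d, Lst (Sj en C.ord) (w 0) d ∧ w 5 ∈ E2 en d (w 1)) ∨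
          (w 2 = 1 ∧ w 5 = w 0))) ?_
      refine DO.and (DO.s3 (X := fun a b c => c = t a b) ht1 3 2 0) ?_
      refine DO.and (DO.s3 (X := fun a b c => c = t a b) ht1 4 0 5) ?_
      refine DO.and (hnth.s2 4 1) ?_
      refine DO.or (DO.and (DO.eqc 3 0) ?_) (DO.and (DO.eqc 3 1) (DO.eq 6 1))
      refine DO.ex (R := fun d w => Lst (Sj en C.ord) (w 1) d ∧ w 6 ∈ E2 en d (w 2)) ?_
      exact DO.and (hQ.s2 2 0) (DO.s3 (X := fun a b c => a ∈ E2 en c b) hE2 7 3 0)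
    have hSfun : ∀ a b b', S a b → S a b' → b = b' := by
      rintro a b b' ⟨i, k, z, c, y, hy, ha, hn, hk⟩ ⟨i', k', z', c', y', hy', ha', hn', hk'⟩
      obtain ⟨rfl, e1⟩ := ht2 _ _ _ _ (ha.symm.trans ha')
      obtain ⟨rfl, rfl⟩ := ht2 _ _ _ _ (hy.symm.trans (e1.trans hy'))
      have := nth_uniq hVH hn hn'
      subst this
      rcases hk with ⟨hk0, d, hd, hb⟩ | ⟨hk1, hb⟩
      · rcases hk' with ⟨-, d', hd', hb'⟩ | ⟨hk1', -⟩
        · have := hd.uniq hd'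
          subst this
          exact hd.1.1 _ _ _ hb hb'
        · rw [hk0] at hk1'
          exact absurd hk1' zero_ne_one
      · rcases hk' with ⟨hk0', -⟩ | ⟨-, hb'⟩
        · rw [hk1] at hk0'
          exact absurd hk0' one_ne_zero
        · rw [hb, hb']
    have hSlt : ∀ a b, S a b → b < β := by
      rintro a b ⟨i, k, z, c, y, hy, ha, hn, hk⟩
      have hc : c < β := hn.1.2
      rcases hk with ⟨hk0, d, hd, hb⟩ | ⟨hk1, hb⟩
      · exact (hd.1.2.1 _ _ hb).trans hc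
      · rw [hb]; exact hc
    have hSonto : ∀ b < β, ∃ a < C.ord, S a b := by
      intro b hb
      obtain ⟨c, hc, hbc, hcX⟩ := hunb b hb
      have hcX' : c ∈ X' := ⟨hcX, hc⟩
      obtain ⟨i, -, hi⟩ := (hVH X').1 c hcX'
      have hiC : i < C.ord := (hi2 _ _ hi).trans hτ
      have h0C : (0 : Ordinal.{u}) < C.ord := by
        have := Cardinal.ord_le_ord.2 hC0
        rw [Cardinal.ord_aleph0] at this
        exact Ordinal.omega0_pos.trans_le this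
      have h1C : (1 : Ordinal.{u}) < C.ord := by
        have := Cardinal.ord_le_ord.2 hC0
        rw [Cardinal.ord_aleph0] at this
        exact Ordinal.one_lt_omega0.trans_le this
      rcases hbc.eq_or_lt with he | hl
      · refine ⟨t i (t 1 0), ht3 C hC0 _ hiC _ (ht3 C hC0 _ h1C _ h0C), i, 1, 0, c, _, rfl, rfl,
          hi, Or.inr ⟨rfl, he⟩⟩
      · obtain ⟨d, hd⟩ := Lst.exist (sj_exists hen hmin' hc)
        obtain ⟨z, hz, hbz⟩ := hd.1.2.2 b hl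
        exact ⟨t i (t 0 z), ht3 C hC0 _ hiC _ (ht3 C hC0 _ h0C _ hz), i, 0, z, c, _, rfl, rfl,
          hi, Or.inl ⟨rfl, d, hd, hbz⟩⟩
    let R : Ordinal.{u} → Ordinal.{u} → Prop := fun a b => S a b ∨ ((¬ ∃ b', S a b') ∧ b = 0)
    have hR : DR R := by
      refine DO.or hSdr (DO.and (DO.not ?_) (DO.eqc 1 0))
      refine DO.ex (R := fun b' w => S (w 0) b') ?_
      exact hSdr.s2 1 0
    have hβ0 : 0 < β := zero_le.trans_lt hb1
    refine ⟨rs C.ord β R, hod_rs hR _ _, isFunc_rs (fun a _ => ?_) (fun a b b' h h' => ?_),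
      fun b hb => ?_⟩
    · by_cases h : ∃ b', S a b'
      · obtain ⟨b, hb⟩ := h
        exact ⟨b, hSlt _ _ hb, Or.inl hb⟩
      · exact ⟨0, hβ0, Or.inr ⟨h, rfl⟩⟩
    · rcases h with h | ⟨h, h0⟩
      · rcases h' with h' | ⟨h', -⟩
        · exact hSfun _ _ _ h h'
        · exact absurd ⟨b, h⟩ h'
      · rcases h' with h' | ⟨-, h0'⟩
        · exact absurd ⟨b', h'⟩ h
        · rw [h0, h0']
    · obtain ⟨a, ha, hS⟩ := hSonto b hb
      exact ⟨a, ha, pair_mem_rs.2 ⟨ha, hb, Or.inl hS⟩⟩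
  · -- first case
    refine ⟨C, C.ord, hC0, hCr, hδ, le_rfl, Cardinal.ord_lt_ord.2 (Order.lt_succ C), ?_⟩
    intro X hX hunb hfew
    rw [Cardinal.card_ord] at hfew
    apply hS
    obtain ⟨τ, hτ, hi1, hi2⟩ := idx hVH hfew
    refine ⟨τ, hτ, rs τ C.ord (nth (X ∩ Iio C.ord)), hod_rs (dr_nth hDB (ds_inter hX _)) _ _,
      isFunc_rs (fun a ha => ?_) (fun a b b' h h' => nth_uniq hVH h h'), fun b hb => ?_⟩
    · obtain ⟨z, hz⟩ := hi1 a ha
      exact ⟨z, hz.1.2, hz⟩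
    · obtain ⟨c, hc, hbc, hcX⟩ := hunb b hb
      obtain ⟨i, -, hi⟩ := (hVH (X ∩ Iio C.ord)).1 c ⟨hcX, hc⟩
      exact ⟨i, hi2 _ _ hi, c, hbc, pair_mem_rs.2 ⟨hi2 _ _ hi, hc, hi⟩⟩

end Pool.Agent.H17.HD.XK
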