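import Pool.Agent.H17.HD.XK

/-!
# Module HB: existence of atoms
-/

open Ordinal Cardinal Order Set
open scoped ZFSet
open _root_.HD

universe u

namespace Pool.Agent.H17.HD.HB

theorem pos_const (hDA : T_DA.{u}) (μ κ : Ordinal.{u})
    {Y : Ordinal.{u} → (ℕ → Ordinal.{u}) → Prop}
    (h : DO fun w => Y (w 0) (fun n => w (n + 1))) : DO fun w => Pos μ κ {a | Y a w} := by
  refine DO.sub (R := fun m w => Pos m κ {a | Y a w}) μ ?_
  refine DO.sub (R := fun k w => Pos (w 0) k {a | Y a (fun n => w (n + 1))}) κ ?_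
  refine hDA 1 0 (fun a w => Y a (fun n => w (n + 2))) ?_
  exact h.ren fun n => if n = 0 then 0 else n + 2

/-- the elements of `X` which are on the same side as `a` of all the sets with codes in `A` -/
def Dd (en : Ordinal.{u} → ZFSet.{u}) (X A : Set Ordinal.{u}) (a : Ordinal.{u}) :
    Set Ordinal.{u} :=
  {b | b ∈ X ∧ ∀ y, y ∈ A → (b ∈ E en y ↔ a ∈ E en y)}

/-- the recursion -/
def Phi (en : Ordinal.{u} → ZFSet.{u}) (X : Set Ordinal.{u}) (μ κ Θ : Ordinal.{u})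
    (x : Ordinal.{u}) (A : Set Ordinal.{u}) (w : ℕ → Ordinal.{u}) : Prop :=
  x < Θ ∧ Pos μ κ {b | b ∈ Dd en X A (w 0) ∧ b ∈ E en x} ∧
    Pos μ κ {b | b ∈ Dd en X A (w 0) ∧ b ∉ E en x}

theorem mem_do {en : Ordinal.{u} → ZFSet.{u}} (hE : DO fun w => w 0 ∈ E en (w 1)) (i j : ℕ) :
    DO fun w => w i ∈ E en (w j) := DO.s2 (X := fun a b => a ∈ E en b) hE i j

theorem memc_do {en : Ordinal.{u} → ZFSet.{u}} (hE : DO fun w => w 0 ∈ E en (w 1))
    (a : Ordinal.{u}) (j : ℕ) : DO fun w => a ∈ E en (w j) :=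
  DO.sub (R := fun a w => a ∈ E en (w j)) a (mem_do hE 0 (j + 1))

theorem phi_do {en : Ordinal.{u} → ZFSet.{u}} (hDA : T_DA.{u})
    (hE : DO fun w => w 0 ∈ E en (w 1)) {X : Set Ordinal.{u}} (hX : DS X)
    (μ κ Θ : Ordinal.{u}) :
    DO fun w => Phi en X μ κ Θ (w 0) (E en (w 1) ∩ Iio (w 0)) (fun n => w (n + 2)) := by
  have hD : DO fun w => w 0 ∈ Dd en X (E en (w 2) ∩ Iio (w 1)) (w 3) := by
    refine DO.and hX ?_
    refine DO.all (R := fun y w => y ∈ E en (w 2) ∩ Iio (w 1) →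
      (w 0 ∈ E en y ↔ w 3 ∈ E en y)) ?_
    exact (DO.and (mem_do hE 0 3) (DO.lt 0 2)).imp ((mem_do hE 1 0).iff (mem_do hE 4 0))
  refine DO.and (DO.ltc 0 Θ) (DO.and ?_ ?_)
  · refine pos_const hDA μ κ (Y := fun b w => b ∈ Dd en X (E en (w 1) ∩ Iio (w 0)) (w 2) ∧
      b ∈ E en (w 0)) ?_
    exact DO.and hD (mem_do hE 0 1)
  · refine pos_const hDA μ κ (Y := fun b w => b ∈ Dd en X (E en (w 1) ∩ Iio (w 0)) (w 2) ∧
      b ∉ E en (w 0)) ?_
    exact DO.and hD (mem_do hE 0 1).not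

theorem nth_congr {J J' : Set Ordinal.{u}} {i x : Ordinal.{u}} (h : ∀ y < x, y ∈ J ↔ y ∈ J')
    (hx : x ∈ J') (hn : nth J i x) : nth J' i x := by
  obtain ⟨-, g, h1, h2, h3⟩ := hn
  refine ⟨hx, g, h1, fun y hy => ?_, fun y hy hyx => h3 y ((h y hyx).2 hy) hyx⟩
  exact ⟨(h _ (h2 y hy).2).1 (h2 y hy).1, (h2 y hy).2⟩

theorem theta {en : Ordinal.{u} → ZFSet.{u}}
    (hE : ∀ X : Set Ordinal.{u}, DS X → ∀ β, ∃ c, E en c = X ∩ Iio β) (κ : Ordinal.{u}) :
    ∃ Θ, ∀ X : Set Ordinal.{u}, DS X → ∃ c < Θ, E en c = X ∩ Iio κ := by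
  classical
  let F : Set (Iio κ) → Ordinal.{u} := fun S =>
    if h : ∃ c, E en c = Subtype.val '' S then Classical.choose h else 0
  have hb : BddAbove (Set.range F) := Ordinal.bddAbove_of_small
  refine ⟨succ (⨆ S, F S), fun X hX => ?_⟩
  have hS : ∃ c, E en c = Subtype.val '' (Subtype.val ⁻¹' X : Set (Iio κ)) := by
    obtain ⟨c, hc⟩ := hE X hX κ
    refine ⟨c, ?_⟩
    rw [hc, Subtype.image_preimage_coe, inter_comm]
  refine ⟨F (Subtype.val ⁻¹' X), Order.lt_succ_of_le (le_ciSup hb _), ?_⟩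
  have : F (Subtype.val ⁻¹' X) = Classical.choose hS := dif_pos hS
  rw [this, Classical.choose_spec hS, Subtype.image_preimage_coe, inter_comm]

theorem clb_univ {K : Cardinal.{u}} (hK : ℵ₀ ≤ K) : Clb K.ord univ where
  unb := fun a ha => ⟨succ a, (Cardinal.isSuccLimit_ord hK).succ_lt ha, Order.lt_succ a,
    mem_univ _⟩
  cls := fun _ _ _ _ => mem_univ _

theorem X (hEA : T_EA.{u}) (hEB : T_EB.{u}) (hDA : T_DA.{u}) (hVA : T_VA.{u}) (hVH : T_VH.{u}) :
    T_HB.{u} := by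
  intro en hen D M K hD hDs hD0 hM hMD hK hDK hNSX X hX hXpos
  obtain ⟨hE1, -, hE3, -⟩ := hEA en hen
  obtain ⟨Θ, hΘ⟩ := theta hE3 K.ord
  have hrec := hEB en hen _ (phi_do hDA hE1 hX M.ord K.ord Θ)
  by_contra hno
  push Not at hno
  -- the sets `J a`
  let J : Ordinal.{u} → Set Ordinal.{u} := fun a =>
    {x | recJ (Phi en X M.ord K.ord Θ) (fun _ => a) x}
  have hJ : ∀ a x, x ∈ J a ↔ Phi en X M.ord K.ord Θ x {y | y < x ∧ y ∈ J a} (fun _ => a) :=
    fun a x => recJ_iff _ _ x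
  have hJds : ∀ a, DS (J a) := fun a =>
    DO.sect (P := fun x w => recJ (Phi en X M.ord K.ord Θ) w x) hrec (fun _ => a)
  -- `J a` is small
  have hfew : ∀ a, Few D.ord (J a) := by
    intro a
    refine hNSX (fun x b => b ∈ Dd en X {y | y < x ∧ y ∈ J a} a ∧ ¬ (b ∈ E en x ↔ a ∈ E en x))
      (J a) ?_ (hJds a) ?_ ?_
    · refine DO.and ?_ ((mem_do hE1 1 0).iff (memc_do hE1 a 0)).not
      refine DO.and (hX.s1 1) ?_
      refine DO.all (R := fun y w => (y < w 0 ∧ y ∈ J a) → (w 1 ∈ E en y ↔ a ∈ E en y)) ?_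
      exact (DO.and (DO.lt 0 1) (hJds a)).imp ((mem_do hE1 2 0).iff (memc_do hE1 a 0))
    · intro x hx
      obtain ⟨-, h1, h2⟩ := (hJ a x).1 hx
      by_cases ha : a ∈ E en x
      · exact h2.mono fun b _ hb _ => ⟨hb.1, fun h => hb.2 (h.2 ha)⟩
      · exact h1.mono fun b _ hb _ => ⟨hb.1, fun h => ha (h.1 hb.2)⟩
    · intro x hx y hy b hbx hby
      rcases lt_trichotomy x y with h | h | h
      · exact absurd (hby.1.2 x ⟨h, hx⟩) hbx.2
      · exact h
      · exact absurd (hbx.1.2 y ⟨h, hy⟩) hby.2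
  -- `D(a)` is null
  have hnull : ∀ a, ¬ Pos M.ord K.ord (Dd en X (J a) a) := by
    intro a hpos
    have hDds : DS (Dd en X (J a) a) := by
      refine DO.and hX ?_
      refine DO.all (R := fun y w => y ∈ J a → (w 0 ∈ E en y ↔ a ∈ E en y)) ?_
      exact (hJds a).imp ((mem_do hE1 1 0).iff (memc_do hE1 a 0))
    obtain ⟨c, hc⟩ := hE3 _ hDds K.ord
    refine hno c (fun b hb => ?_) ⟨?_, fun x hx => ?_⟩
    · rw [hc] at hb
      exact hb.1.1
    · rw [hc]
      exact hpos.mono fun b hb h _ => ⟨h, hb⟩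
    · obtain ⟨x', hx', hEx⟩ := hΘ (E en x)
        (DO.sect (P := fun b w => b ∈ E en (w 0)) (mem_do hE1 0 1) (fun _ => x))
      have hEx' : ∀ b < K.ord, (b ∈ E en x' ↔ b ∈ E en x) := by
        intro b hb
        rw [hEx]
        exact ⟨fun h => h.1, fun h => ⟨h, hb⟩⟩
      have hsub : ∀ b, b ∈ Dd en X (J a) a → b ∈ Dd en X {y | y < x' ∧ y ∈ J a} a :=
        fun b hb => ⟨hb.1, fun y hy => hb.2 y hy.2⟩
      have hcD : ∀ b, b ∈ E en c → b ∈ Dd en X (J a) a := fun b hb => by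
        rw [hc] at hb
        exact hb.1
      have hxJ : x' ∈ J a := by
        rw [hJ]
        refine ⟨hx', hx.1.mono fun b hb h _ => ?_, hx.2.mono fun b hb h _ => ?_⟩
        · exact ⟨hsub b (hcD b h.1), (hEx' b hb).2 h.2⟩
        · exact ⟨hsub b (hcD b h.1), fun h' => h.2 ((hEx' b hb).1 h')⟩
      by_cases ha : a ∈ E en x'
      · obtain ⟨b, hb, -, hb2, -⟩ := hx.2 univ (clb_univ hK.1)
        exact hb2.2 ((hEx' b hb).1 (((hcD b hb2.1).2 x' hxJ).2 ha))
      · obtain ⟨b, hb, -, hb2, -⟩ := hx.1 univ (clb_univ hK.1)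
        exact ha (((hcD b hb2.1).2 x' hxJ).1 ((hEx' b hb).2 hb2.2))
  -- the index sets
  have hidx := fun a => XK.idx hVH (hfew a)
  choose τ hτ hi1 hi2 using hidx
  let P : Ordinal.{u} → Set D.ord.ToType := fun b =>
    {i | ∃ y, nth (J b) (ToType.mk.symm i).1 y ∧ b ∈ E en y}
  have hPb : ∀ b, Bounded (· < ·) (P b) := by
    intro b
    refine ⟨ToType.mk ⟨τ b, hτ b⟩, fun i hi => ?_⟩
    obtain ⟨y, hy, -⟩ := hi
    have h1 := hi2 b _ _ hy
    have h2 : ToType.mk.symm i < (⟨τ b, hτ b⟩ : Iio D.ord) := h1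
    have h3 := ToType.mk.lt_iff_lt.2 h2
    rwa [OrderIso.apply_symm_apply] at h3
  have hP : ∀ a b i, i < D.ord → P a = P b →
      ((∃ y, nth (J a) i y ∧ a ∈ E en y) ↔ ∃ y, nth (J b) i y ∧ b ∈ E en y) := by
    intro a b i hi hab
    have h1 : (ToType.mk ⟨i, hi⟩ ∈ P a) ↔ (ToType.mk ⟨i, hi⟩ ∈ P b) := by rw [hab]
    simpa [P] using h1
  -- equal index sets
  have hsame : ∀ a b, P a = P b → ∀ x, (x ∈ J a ↔ x ∈ J b) ∧
      (x ∈ J a → (a ∈ E en x ↔ b ∈ E en x)) := by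
    intro a b hab x
    induction x using WellFoundedLT.induction with
    | ind x ih =>
      have hAB : {y | y < x ∧ y ∈ J a} = {y | y < x ∧ y ∈ J b} := by
        ext y
        exact and_congr_right fun h => (ih y h).1
      have hDD : Dd en X {y | y < x ∧ y ∈ J a} a = Dd en X {y | y < x ∧ y ∈ J b} b := by
        ext c
        refine and_congr_right fun _ => forall_congr' fun y => ?_
        constructor
        · intro h hy
          rw [h ⟨hy.1, (ih y hy.1).1.2 hy.2⟩]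
          exact (ih y hy.1).2 ((ih y hy.1).1.2 hy.2)
        · intro h hy
          rw [h ⟨hy.1, (ih y hy.1).1.1 hy.2⟩]
          exact ((ih y hy.1).2 hy.2).symm
      have hmem : x ∈ J a ↔ x ∈ J b := by
        rw [hJ, hJ]
        unfold Phi
        rw [hDD]
      refine ⟨hmem, fun hx => ?_⟩
      obtain ⟨i, -, hi⟩ := (hVH (J a)).1 x hx
      have hib : nth (J b) i x := nth_congr (fun y hy => (ih y hy).1) (hmem.1 hx) hi
      have hiD : i < D.ord := (hi2 a _ _ hi).trans (hτ a)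
      have key := hP a b i hiD hab
      constructor
      · intro h
        obtain ⟨y, hy, hby⟩ := key.1 ⟨x, hi, h⟩
        rwa [XK.nth_uniq hVH hib hy]
      · intro h
        obtain ⟨y, hy, hay⟩ := key.2 ⟨x, hib, h⟩
        rwa [XK.nth_uniq hVH hi hy]
  -- the number of index sets
  have hcard : #{s : Set D.ord.ToType // Bounded (· < ·) s} = #D.ord.ToType := by
    refine Cardinal.mk_bounded_subset ?_ ?_
    · rw [Cardinal.mk_ord_toType]
      exact hDs.isStrongPrelimit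
    · rw [Cardinal.mk_ord_toType, Ordinal.type_toType]
  obtain ⟨e⟩ := Cardinal.eq.1 hcard
  have hKcof : K.ord.cof = K := hK.cof_ord
  refine hVA M.ord K.ord (by rw [hKcof]; exact hD0.trans hDK) D.ord
    (by rw [hKcof, Cardinal.card_ord]; exact hDK)
    (fun i => {b | b ∈ X ∧ (ToType.mk.symm (e ⟨P b, hPb b⟩)).1 = i}) (fun i _ hpos => ?_) ?_
  · obtain ⟨a, -, -, ha, -⟩ := hpos univ (clb_univ hK.1)
    refine hnull a (hpos.mono fun b _ hb _ => ?_)
    have h1 : (ToType.mk.symm (e ⟨P a, hPb a⟩)).1 = (ToType.mk.symm (e ⟨P b, hPb b⟩)).1 :=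
      ha.2.trans hb.2.symm
    have h2 := e.injective (ToType.mk.symm.injective (Subtype.ext h1))
    have h3 : P a = P b := congrArg Subtype.val h2
    exact ⟨hb.1, fun y hy => ((hsame a b h3 y).2 hy).symm⟩
  · exact hXpos.mono fun b _ hb _ => ⟨_, (ToType.mk.symm (e ⟨P b, hPb b⟩)).2, hb, rfl⟩

end Pool.Agent.H17.HD.HB
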