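import Pool.Agent.H7.HD.Tools2

/-!
# Module XD: embeddings preserve regular cardinals
-/

open Ordinal Cardinal Order Set
open scoped ZFSet
open _root_.HD

universe u

namespace Pool.Agent.H17.HD.XD

theorem X (hLA : T_LA.{u}) : T_XD.{u} := by
  intro δ η θ j h K hK hη
  have h1 := h.trl hLA [K.ord.toZFSet, K.ord.toZFSet] (by
    simp only [List.mem_cons, List.not_mem_nil, or_false, forall_eq_or_imp, forall_eq]
    exact ⟨Gd.ord.2 hη, Gd.ord.2 hη⟩)
  simp only [sv_cons_zero, sv_cons_succ, List.map_cons, List.map_nil] at h1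
  have h2 : Cf K.ord K.ord := by
    show K.ord.cof.ord = K.ord
    rw [hK.cof_ord]
  have h3 : Cf (Jo j K.ord) (Jo j K.ord) := by
    refine (h1.1 ⟨ZFSet.isOrdinal_toZFSet _, ZFSet.isOrdinal_toZFSet _, ?_⟩).2.2
    rwa [rank_toZFSet]
  have h4 : (Jo j K.ord).cof.ord = Jo j K.ord := h3
  refine ⟨(Jo j K.ord).cof, ⟨?_, ?_⟩, h4.symm⟩
  · have h5 := h.le_Jo hη
    rw [← h4] at h5
    exact hK.1.trans (Cardinal.ord_le_ord.1 h5)
  · rw [h4]

end Pool.Agent.H17.HD.XD
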